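import Pool.Agent.H751.WR.Main
import Pool.Graph.R_pool_sql_team_seeded_47a924f7.T6.H46.RR.Main

/-!
# Nested pairs of half-spaces with virtually abelian stabilisers
-/

set_option autoImplicit false

open Metric Set Filter Topology Pointwise
open Pool.Agent.TH60.FP Pool.Agent.TH60.FP.Strip Pool.Agent.Y34.HB Pool.Agent.Y34.EL
open Pool.Agent.T6.H46.RR Pool.Agent.T6.H46.RC

namespace Pool.Agent.H751.WR

section group

variable {G : Type} [Group G]

/-- every element of `A` has a power whose conjugate by `g` is in `A` -/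
def Com (A : Subgroup G) (g : G) : Prop := ∀ a ∈ A, ∃ l : ℕ, 0 < l ∧ g * a ^ l * g⁻¹ ∈ A

lemma Com.mul {A : Subgroup G} {g h : G} (hg : Com A g) (hh : Com A h) : Com A (g * h) := by
  intro a ha
  obtain ⟨l, h1, h2⟩ := hh a ha
  obtain ⟨l', h3, h4⟩ := hg _ h2
  refine ⟨l * l', Nat.mul_pos h1 h3, ?_⟩
  rw [conj_pow, ← pow_mul] at h4
  rw [mul_inv_rev]
  have e : g * h * a ^ (l * l') * (h⁻¹ * g⁻¹) = g * (h * a ^ (l * l') * h⁻¹) * g⁻¹ := by group
  rw [e]
  exact h4

/-- the elements which commensurate `A` in this sense -/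
def CC' (A : Subgroup G) : Subgroup G where
  carrier := {g | Com A g ∧ Com A g⁻¹}
  one_mem' := by
    have : Com A (1 : G) := fun a ha => ⟨1, one_pos, by simpa using ha⟩
    refine ⟨this, ?_⟩
    rw [inv_one]
    exact this
  mul_mem' := by
    rintro a b ⟨h1, h2⟩ ⟨h3, h4⟩
    refine ⟨h1.mul h3, ?_⟩
    rw [mul_inv_rev]
    exact h4.mul h2
  inv_mem' := by
    rintro a ⟨h1, h2⟩
    refine ⟨h2, ?_⟩
    rwa [inv_inv]

lemma VA.up {L L' : Subgroup G} (hle : L ≤ L') (hidx : L.relIndex L' ≠ 0) {r : ℕ} (h : VA L r) :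
    VA L' r := by
  obtain ⟨M, hM1, hM2, φ, hφ, h1, h2, h3⟩ := h
  refine ⟨M, hM1, hM2, φ, hφ, h1.trans hle, ?_, h3⟩
  rw [← Subgroup.relIndex_mul_relIndex _ _ _ h1 hle]
  exact mul_ne_zero h2 hidx

variable {V : Type} [MulAction G V]

lemma relIndex_of_orb {S : Subgroup G} {U : Set V}
    (h : {W : Set V | ∃ s : G, s ∈ S ∧ s • U = W}.Finite) :
    (MulAction.stabilizer G U).relIndex S ≠ 0 := by
  have h1 : (MulAction.stabilizer G U).subgroupOf S = MulAction.stabilizer S U := by
    ext s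
    rw [Subgroup.mem_subgroupOf, MulAction.mem_stabilizer_iff, MulAction.mem_stabilizer_iff]
    rfl
  rw [Subgroup.relIndex, h1, MulAction.index_stabilizer]
  have h2 : (MulAction.orbit S U).Finite := by
    refine h.subset ?_
    rintro _ ⟨s, rfl⟩
    exact ⟨s, s.2, rfl⟩
  have h3 := (Set.ncard_pos h2).2 (MulAction.nonempty_orbit U)
  exact h3.ne'

/-- the common stabiliser -/
def PS2 (G : Type) [Group G] {V : Type} [MulAction G V] (h h' : Set V) : Subgroup G :=
  MulAction.stabilizer G h ⊓ MulAction.stabilizer G h'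

lemma mem_PS2 {h h' : Set V} {s : G} : s ∈ PS2 G h h' ↔ s • h = h ∧ s • h' = h' := Iff.rfl

/-- a set between `A` and `B` is stabilised by a subgroup of finite index -/
lemma idx_between {U A B : Set V} (hD : Disc G U) (hA : A.Nonempty) (hB : B ≠ univ)
    (h1 : A ⊆ U) (h2 : U ⊆ B) : (MulAction.stabilizer G U).relIndex (PS2 G B A) ≠ 0 := by
  refine relIndex_of_orb ((orb_finite hD hA hB h1 h2).subset ?_)
  rintro W ⟨s, hs, hs'⟩
  obtain ⟨h3, h4⟩ := mem_PS2.1 hs
  exact ⟨s, h4, h3, hs'⟩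

variable {h h' : Set V}

/-- the types of nested elements commensurate a stabiliser of minimal rank -/
lemma com_types (hle : h' ⊆ h) (hD : Disc G h) (hD' : Disc G h') {p q : G}
    (hp : p • h'ᶜ ⊂ h') (hq : q • h ⊂ hᶜ) {M : Type} [AddCommGroup M] [Module.Finite ℤ M]
    {φ : Multiplicative M →* G} (hφ : Function.Injective φ) (hφle : φ.range ≤ PS2 G h h')
    (hidx : φ.range.relIndex (PS2 G h h') ≠ 0)
    (hmin : ∀ (g : G) (r' : ℕ), g • h' ⊆ h → VA (PS2 G h (g • h')) r' →
      Module.finrank ℤ M ≤ r') :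
    (∀ g : G, Coh h h' g → g ∈ CC' φ.range) ∧ (∀ g : G, g • h'ᶜ ⊂ h' → g ∈ CC' φ.range) ∧
      ∀ g : G, g • h ⊂ hᶜ → g ∈ CC' φ.range := by
  have hKA : ∀ s ∈ PS2 G h h', ∃ l : ℕ, 0 < l ∧ s ^ l ∈ φ.range := by
    intro s hs
    obtain ⟨l, h1, -, h2⟩ := Subgroup.exists_pow_mem_of_relIndex_ne_zero hidx hs
    exact ⟨l, h1, h2.1⟩
  have hne' : h'.Nonempty := by
    obtain ⟨z, hz, -⟩ := exists_of_ssubset hp
    exact ⟨_, hz⟩
  have hne : h ≠ univ := by
    rintro rfl
    obtain ⟨z, hz, -⟩ := exists_of_ssubset hq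
    exact hz trivial
  -- finish
  have fin1 : ∀ (g : G) (a : G) (l : ℕ), 0 < l → g * a ^ l * g⁻¹ ∈ PS2 G h h' →
      ∃ l : ℕ, 0 < l ∧ g * a ^ l * g⁻¹ ∈ φ.range := by
    intro g a l hl hm
    obtain ⟨l', h1, h2⟩ := hKA _ hm
    refine ⟨l * l', Nat.mul_pos hl h1, ?_⟩
    rwa [conj_pow, ← pow_mul] at h2
  -- coherent elements
  have hcoh : ∀ g : G, Coh h h' g → Com φ.range g ∧ Com φ.range g⁻¹ := by
    intro g hg
    have i1 : g • h' ⊆ g • h := smul_set_mono hle
    set S := PS2 G h (g • h') with hS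
    have hA : (g • h').Nonempty := hne'.smul_set
    have x1 := idx_between hD' hA hne (i1.trans hg.1) hle
    have x2 := idx_between (hD.smul g) hA hne i1 (hg.1.trans hle)
    set L := S ⊓ (MulAction.stabilizer G h' ⊓ MulAction.stabilizer G (g • h)) with hL
    have hLS : L.relIndex S ≠ 0 := by
      rw [hL, Subgroup.inf_relIndex_left]
      exact Subgroup.relIndex_inf_ne_zero x1 x2
    have hm : ∀ r', VA L r' → Module.finrank ℤ M ≤ r' := fun r' hr =>
      hmin g r' (i1.trans (hg.1.trans hle)) (VA.up inf_le_left hLS hr)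
    have hLmem : ∀ s ∈ L, s ∈ PS2 G h h' ∧ g⁻¹ * s * g ∈ PS2 G h h' := by
      rintro s ⟨⟨s1, s2⟩, s3, s4⟩
      refine ⟨⟨s1, s3⟩, ?_, ?_⟩
      · show (g⁻¹ * s * g) • h = h
        have : s • g • h = g • h := s4
        rw [mul_smul, mul_smul, this, inv_smul_smul]
      · show (g⁻¹ * s * g) • h' = h'
        have : s • g • h' = g • h' := s2
        rw [mul_smul, mul_smul, this, inv_smul_smul]
    constructor
    · intro a ha
      obtain ⟨l, hl, hl'⟩ := power_mem hφ hidx g (K' := L) (fun s hs => (hLmem s hs).2) hm a ha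
      exact fin1 g a l hl (hLmem _ hl').1
    · intro a ha
      obtain ⟨l, hl, hl'⟩ := power_mem hφ hidx 1 (K' := L) (fun s hs => by
        rw [inv_one, one_mul, mul_one]; exact (hLmem s hs).1) hm a ha
      rw [one_mul, inv_one, mul_one] at hl'
      refine fin1 g⁻¹ a l hl ?_
      rw [inv_inv]
      exact (hLmem _ hl').2
  -- facing elements
  have hfac' : ∀ g : G, g • h'ᶜ ⊂ h' → Com φ.range g⁻¹ := by
    intro g hg
    have hA : ((g * q) • h').Nonempty := hne'.smul_set
    have i1 : g • h'ᶜ ⊆ h := hg.1.trans hle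
    have i2 : g • hᶜ ⊆ g • h'ᶜ := smul_set_mono (compl_subset_compl.2 hle)
    have i3 : (g * q) • h' ⊆ g • hᶜ := by
      rw [mul_smul]
      exact smul_set_mono ((smul_set_mono hle).trans hq.1)
    set S := PS2 G h ((g * q) • h') with hS
    have x1 := idx_between hD' hA hne (i3.trans (i2.trans hg.1)) hle
    have x2 := idx_between (hD.compl.smul g) hA hne i3 (i2.trans i1)
    have x3 := idx_between (hD'.compl.smul g) hA hne (i3.trans i2) i1
    set L := S ⊓ (MulAction.stabilizer G h' ⊓ (MulAction.stabilizer G (g • hᶜ) ⊓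
      MulAction.stabilizer G (g • h'ᶜ))) with hL
    have hLS : L.relIndex S ≠ 0 := by
      rw [hL, Subgroup.inf_relIndex_left]
      exact Subgroup.relIndex_inf_ne_zero x1 (Subgroup.relIndex_inf_ne_zero x2 x3)
    have hm : ∀ r', VA L r' → Module.finrank ℤ M ≤ r' := fun r' hr =>
      hmin (g * q) r' (i3.trans (i2.trans i1)) (VA.up inf_le_left hLS hr)
    intro a ha
    obtain ⟨l, hl, hl'⟩ := power_mem hφ hidx 1 (K' := L) (fun s hs => by
      rw [inv_one, one_mul, mul_one]
      exact ⟨hs.1.1, hs.2.1⟩) hm a ha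
    rw [one_mul, inv_one, mul_one] at hl'
    refine fin1 g⁻¹ a l hl ?_
    rw [inv_inv]
    obtain ⟨⟨s1, s2⟩, s3, s4, s5⟩ := hl'
    have key : ∀ U : Set V, a ^ l • g • Uᶜ = g • Uᶜ → (g⁻¹ * a ^ l * g) • U = U := by
      intro U hU
      have h1 : (g⁻¹ * a ^ l * g) • Uᶜ = Uᶜ := by
        rw [mul_smul, mul_smul, hU, inv_smul_smul]
      rw [compl_smul, compl_inj_iff] at h1
      exact h1
    exact ⟨key _ s4, key _ s5⟩
  have hfac : ∀ g : G, g • h'ᶜ ⊂ h' → Com φ.range g ∧ Com φ.range g⁻¹ := by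
    intro g hg
    refine ⟨?_, hfac' g hg⟩
    have := hfac' _ (fac_inv hg)
    rwa [inv_inv] at this
  refine ⟨hcoh, hfac, fun g hg => ?_⟩
  have key : ∀ g : G, g • h ⊂ hᶜ → Com φ.range g := by
    intro g hg
    have h1 := ((hfac p hp).2).mul (hcoh _ (coh_of_ss hle (pq_ss hle hp hg))).1
    rwa [inv_mul_cancel_left] at h1
  refine ⟨key g hg, key _ ?_⟩
  have := fac_inv (U := hᶜ) (p := g) (by rwa [compl_compl])
  rwa [compl_compl] at this

end group

variable {X : Type} [MetricSpace X] {G : Type} [Group G] [MulAction G X]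
variable {V : Type} [MulAction G V] {h h' : Set V}

/-- **Main theorem for virtually abelian stabilisers** -/
theorem mainA (hG : Geo X G) (hGC : GC X) (o : X) (hle : h' ⊆ h) (hD : Disc G h)
    (hD' : Disc G h') (hfd : FinTra G h) {p q : G} (hp : p • h'ᶜ ⊂ h') (hq : q • h ⊂ hᶜ)
    {r : ℕ} (hVA : VA (PS2 G h h') r) : (∃ g : G, RankOne X g) ∨ SplitsLine X := by
  classical
  have := hG.isom
  -- a pair of minimal rank
  let Q : ℕ → Prop := fun r => ∃ g : G, g • h' ⊆ h ∧ VA (PS2 G h (g • h')) r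
  have hQ : ∃ r, Q r := ⟨r, 1, by rwa [one_smul], by rwa [one_smul]⟩
  obtain ⟨g₀, hg₀, M, hM1, hM2, φ, hφ, hφle, hidx, hr⟩ := Nat.find_spec hQ
  have hmin : ∀ (g : G) (r' : ℕ), g • g₀ • h' ⊆ h → VA (PS2 G h (g • g₀ • h')) r' →
      Module.finrank ℤ M ≤ r' := by
    intro g r' h1 h2
    have h3 := Nat.find_min' hQ (m := r') ⟨g * g₀, by rwa [mul_smul], by rwa [mul_smul]⟩
    rw [← hr] at h3
    exact h3
  have hD₀ : Disc G (g₀ • h') := hD'.smul g₀
  have hp₀ : (g₀ * p * g₀⁻¹) • (g₀ • h')ᶜ ⊂ g₀ • h' := by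
    rw [← compl_smul, mul_smul, mul_smul, inv_smul_smul]
    exact smul_ss g₀ hp
  obtain ⟨t1, t2, t3⟩ := com_types hg₀ hD hD₀ hp₀ hq hφ hφle hidx hmin
  have hfi : (CC' φ.range).FiniteIndex := finite_quot (H := CC' φ.range)
    (fun u hu => tra_of_notMem hg₀ hp₀ hq t1 t2 t3 hu) hfd
  by_cases hfin : Finite φ.range
  · -- the stabiliser is finite
    left
    have h1 : Finite (PS2 G h (g₀ • h')) := by
      have hc := Subgroup.card_mul_index (φ.range.subgroupOf (PS2 G h (g₀ • h')))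
      have h2 : Finite (φ.range.subgroupOf (PS2 G h (g₀ • h'))) :=
        Finite.of_injective (fun s => (⟨((s : PS2 G h (g₀ • h')) : G),
          Subgroup.mem_subgroupOf.1 s.2⟩ : φ.range)) (by
          intro s t h
          have := congrArg Subtype.val h
          exact Subtype.ext (Subtype.ext this))
      have h3 : Nat.card (φ.range.subgroupOf (PS2 G h (g₀ • h'))) ≠ 0 := Nat.card_pos.ne'
      refine Nat.finite_of_card_ne_zero ?_
      rw [← hc]
      exact Nat.mul_ne_zero h3 hidx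
    set f := (g₀ * p * g₀⁻¹) * q with hf
    have f1 : f • h ⊂ g₀ • h' := pq_ss hg₀ hp₀ hq
    have f2 : f • h ⊂ h := (coh_of_ss hg₀ f1).ss hg₀
    have f3 : (f • h).Nonempty := by
      obtain ⟨z, hz, -⟩ := exists_of_ssubset (smul_ss f f2)
      exact ⟨z, hz⟩
    have hne : h ≠ univ := by
      rintro rfl
      obtain ⟨z, hz, -⟩ := exists_of_ssubset hq
      exact hz trivial
    refine ⟨f, rank_one_of_wall hG o hD f2 one_pos ?_⟩
    have e1 : {s : G | s • h = h ∧ s • f ^ 1 • h = f ^ 1 • h} = (PS2 G h (f • h) : Set G) := by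
      ext s
      rw [pow_one]
      exact Iff.rfl
    rw [e1]
    refine fin_of_stab (U := g₀ • h') ?_ ?_
    · refine (Set.toFinite ((PS2 G h (g₀ • h') : Subgroup G) : Set G)).subset ?_
      rintro s ⟨⟨s1, s2⟩, s3⟩
      exact ⟨s1, s3⟩
    · refine (orb_finite hD₀ f3 hne f1.1 hg₀).subset ?_
      rintro W ⟨s, hs, hs'⟩
      obtain ⟨h3, h4⟩ := mem_PS2.1 hs
      exact ⟨s, h4, h3, hs'⟩
  · obtain ⟨a, ha, hai⟩ : ∃ a ∈ φ.range, ¬ IsOfFinOrder a := by
      by_contra hcon
      push Not at hcon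
      apply hfin
      have htor : Module.IsTorsion ℤ M := by
        intro m
        obtain ⟨k, hk, hk'⟩ := isOfFinOrder_iff_pow_eq_one.1
          (hcon (φ (Multiplicative.ofAdd m)) ⟨_, rfl⟩)
        rw [← map_pow, ← ofAdd_nsmul] at hk'
        have h1 : k • m = 0 := by
          have h2 : φ (Multiplicative.ofAdd (k • m)) = φ 1 := by rw [hk', map_one]
          exact hφ h2
        refine ⟨⟨(k : ℤ), mem_nonZeroDivisors_of_ne_zero (by exact_mod_cast hk.ne')⟩, ?_⟩
        show ((k : ℤ) • m) = 0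
        rw [natCast_zsmul, h1]
      have hM : Finite M := Module.finite_of_fg_torsion M htor
      have : Finite (Multiplicative M) := hM
      exact Finite.of_surjective φ.rangeRestrict φ.rangeRestrict_surjective
    set A := φ.range with hA
    have hAc : ∀ a ∈ A, ∀ b ∈ A, a * b = b * a := by
      rintro _ ⟨a, rfl⟩ _ ⟨b, rfl⟩
      rw [← map_mul, ← map_mul, mul_comm]
    set N : Subgroup G := (CC' A).normalCore with hN
    have hNH : N ≤ CC' A := Subgroup.normalCore_le _
    have hNn : N.Normal := inferInstance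
    have hNfi : N.FiniteIndex := inferInstance
    have hGN : Geo X N := geo_finite hG N
    -- the subgroup is finitely generated
    have hfgA : Module.Finite ℤ M := hM2
    have hfg : (A.subgroupOf N).FG := by
      let _ : CommGroup (A.subgroupOf N) := { (inferInstance : Group (A.subgroupOf N)) with
        mul_comm := fun a b => Subtype.ext (Subtype.ext (hAc _ (Subgroup.mem_subgroupOf.1 a.2) _
          (Subgroup.mem_subgroupOf.1 b.2))) }
      let e : Multiplicative M ≃* A := MonoidHom.ofInjective hφ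
      let i0 : A.subgroupOf N →* A :=
        { toFun := fun x => ⟨((x : N) : G), Subgroup.mem_subgroupOf.1 x.2⟩
          map_one' := rfl
          map_mul' := fun _ _ => rfl }
      let i1 : A.subgroupOf N →* Multiplicative M := e.symm.toMonoidHom.comp i0
      have hi1 : Function.Injective i1 := by
        refine e.symm.injective.comp ?_
        intro a b hab
        have := congrArg (fun z : A => (z : G)) hab
        exact Subtype.ext (Subtype.ext this)
      let i2 : Additive (A.subgroupOf N) →+ M := MonoidHom.toAdditiveLeft i1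
      have hi2 : Function.Injective i2 := fun a b hab => hi1 hab
      have h4 : Module.Finite ℤ (Additive (A.subgroupOf N)) :=
        Module.Finite.of_injective i2.toIntLinearMap hi2
      have h5 : AddGroup.FG (Additive (A.subgroupOf N)) := Module.Finite.iff_addGroup_fg.1 h4
      have h6 : Group.FG (A.subgroupOf N) := GroupFG.iff_add_fg.2 h5
      exact (Group.fg_iff_subgroup_fg _).1 h6
    obtain ⟨n, hn0, -, hn⟩ := Subgroup.exists_pow_mem_of_index_ne_zero
      (Subgroup.FiniteIndex.index_ne_zero (H := N)) a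
    have key := split_of_commensurated hGN hGC o (A.subgroupOf N) hfg
      (fun a ha b hb => Subtype.ext (hAc _ (Subgroup.mem_subgroupOf.1 ha) _
        (Subgroup.mem_subgroupOf.1 hb))) (fun g b hb => by
        obtain ⟨l, hl, hl'⟩ := (hNH g.2).1 (b : G) (Subgroup.mem_subgroupOf.1 hb)
        exact ⟨l, hl, Subgroup.mem_subgroupOf.2 hl'⟩) (a := ⟨a ^ n, hn⟩)
      (Subgroup.mem_subgroupOf.2 (A.pow_mem ha n)) (fun hcon => hai (by
        have h1 : IsOfFinOrder (a ^ n) := by
          have := hcon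
          rw [isOfFinOrder_iff_pow_eq_one] at this ⊢
          obtain ⟨m, hm, hm'⟩ := this
          exact ⟨m, hm, by simpa using congrArg Subtype.val hm'⟩
        exact (isOfFinOrder_pow.1 h1).resolve_right hn0.ne'))
    rcases key with ⟨g, hg⟩ | hs
    · obtain ⟨τ, c, h1, h2, h3⟩ := hg
      exact Or.inl ⟨(g : G), τ, c, h1, ⟨h2.1, h2.2⟩, h3⟩
    · exact Or.inr hs

end Pool.Agent.H751.WR
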