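import Pool.Agent.H751.WR.Pair

/-!
# The translates at finite distance
-/

set_option autoImplicit false

open Metric Set Filter Topology Pointwise
open Pool.Agent.TH60.FP Pool.Agent.TH60.FP.Strip Pool.Agent.Y34.HB Pool.Agent.Y34.EL
open Pool.Agent.T6.H46.RR Pool.Agent.T6.H46.RC

namespace Pool.Agent.H751.WR

variable {X : Type} [MetricSpace X] {G : Type} [Group G] [MulAction G X]

/-- transport through an intermediate conjugate, up to finitely many cosets -/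
lemma bd_sub (hG : Geo X G) {K : Subgroup G} {B : Set X} (hB : CC K B) {g h : G}
    (hg : Bd B g) {β : Type} (φ : G → β) (hfin : (φ '' {s | s ∈ K ∧ g⁻¹ * s * g ∈ K}).Finite)
    (hφ : ∀ s ∈ K, ∀ t ∈ K, φ s = φ t → h⁻¹ * (s * t⁻¹) * h ∈ K) : Bd B h := by
  have := hG.isom
  obtain ⟨r, hr⟩ := hg
  obtain ⟨o, ho⟩ := hB.ne
  obtain ⟨R₁, hR₁⟩ := coarse hG hB ho g r
  have hrep : ∀ b : β, ∃ t : G, b ∈ φ '' {s | s ∈ K ∧ g⁻¹ * s * g ∈ K} → t ∈ K ∧ φ t = b := by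
    intro b
    by_cases hb : b ∈ φ '' {s | s ∈ K ∧ g⁻¹ * s * g ∈ K}
    · obtain ⟨t, ht, hb'⟩ := hb
      exact ⟨t, fun _ => ⟨ht.1, hb'⟩⟩
    · exact ⟨1, fun h => absurd h hb⟩
  choose rep hrep using hrep
  obtain ⟨M, hM⟩ := (hfin.image (fun b => ph B h (rep b • o))).bddAbove
  refine ⟨R₁ + M, fun x hx => ?_⟩
  obtain ⟨a, ha, ha'⟩ := hR₁ x hx (hr x hx)
  have hb : φ (a : G) ∈ φ '' {s | s ∈ K ∧ g⁻¹ * s * g ∈ K} := ⟨a, ⟨a.2, mem_IK.1 ha⟩, rfl⟩
  obtain ⟨h1, h2⟩ := hrep _ hb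
  have h3 := hφ a a.2 _ h1 h2.symm
  have h4 : ph B h ((a : G) • o) = ph B h (rep (φ (a : G)) • o) := by
    have := ph_inv hB h3 (rep (φ (a : G)) • o)
    rwa [smul_smul, inv_mul_cancel_right] at this
  have h5 : ph B h (rep (φ (a : G)) • o) ≤ M := hM ⟨_, hb, rfl⟩
  have h6 := ph_lip B h x ((a : G) • o)
  rw [h4, abs_le] at h6
  linarith

variable {V : Type} [MulAction G V] {h h' : Set V}

omit [MulAction G V] [Group G] in
lemma compl_ss {A B : Set V} (hAB : A ⊂ B) : Bᶜ ⊂ Aᶜ :=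
  ⟨compl_subset_compl.2 hAB.1, fun h0 => hAB.2 (compl_subset_compl.1 h0)⟩

omit [MetricSpace X] [MulAction G X] in
/-- an element which moves `h'ᶜ` into `h'` has an inverse with this property -/
lemma fac_inv {U : Set V} {p : G} (hp : p • Uᶜ ⊂ U) : p⁻¹ • Uᶜ ⊂ U := by
  have h1 := compl_ss hp
  rw [compl_smul, compl_compl] at h1
  have h2 := smul_ss p⁻¹ h1
  rwa [inv_smul_smul] at h2

omit [MetricSpace X] [MulAction G X] in
lemma pq_ss (hle : h' ⊆ h) {p q : G} (hp : p • h'ᶜ ⊂ h') (hq : q • h ⊂ hᶜ) :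
    (p * q) • h ⊂ h' := by
  rw [mul_smul]
  refine (smul_ss p hq).trans_subset ((smul_set_mono (compl_subset_compl.2 hle)).trans hp.1)

omit [MetricSpace X] [MulAction G X] in
lemma coh_of_ss (hle : h' ⊆ h) {g : G} (hg : g • h ⊂ h') : Coh h h' g := by
  refine ⟨hg.1, fun h0 => ?_⟩
  rw [h0] at hg
  exact hg.2 hle

/-- facing elements -/
lemma bd_fac (hG : Geo X G) {K : Subgroup G} {B : Set X} (hB : CC K B) (hle : h' ⊆ h)
    (hD : Disc G h) (hD' : Disc G h')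
    (hK : ∀ s : G, s ∈ K ↔ s • h = h ∧ s • h' = h') {q : G} (hq : q • h ⊂ hᶜ)
    (hcoh : ∀ g : G, Coh h h' g → Bd B g) {p : G} (hp : p • h'ᶜ ⊂ h') : Bd B p := by
  have hbd := hcoh _ (coh_of_ss hle (pq_ss hle hp hq))
  have hAne : ((p * q) • h').Nonempty := by
    obtain ⟨z, hz, -⟩ := exists_of_ssubset hp
    exact ⟨_, smul_mem_smul_set hz⟩
  have hne : h ≠ univ := by
    rintro rfl
    obtain ⟨z, hz, -⟩ := exists_of_ssubset hq
    exact hz trivial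
  have i1 : p • h'ᶜ ⊆ h := hp.1.trans hle
  have i2 : p • hᶜ ⊆ p • h'ᶜ := smul_set_mono (compl_subset_compl.2 hle)
  have i3 : (p * q) • h' ⊆ p • hᶜ := by
    rw [mul_smul]
    exact smul_set_mono ((smul_set_mono hle).trans hq.1)
  have o1 := orb_finite (hD.compl.smul p) hAne hne i3 (i2.trans i1)
  have o2 := orb_finite (hD'.compl.smul p) hAne hne (i3.trans i2) i1
  refine bd_sub hG hB hbd (fun s => (s⁻¹ • p • hᶜ, s⁻¹ • p • h'ᶜ)) ((o1.prod o2).subset ?_) ?_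
  · rintro _ ⟨s, ⟨hs1, hs2⟩, rfl⟩
    rw [hK] at hs1 hs2
    have e1 : s⁻¹ • h = h := by rw [inv_smul_eq_iff]; exact hs1.1.symm
    have e2 : s⁻¹ • (p * q) • h' = (p * q) • h' := by
      have := hs2.2
      rw [mul_smul, mul_smul, inv_smul_eq_iff] at this
      rw [inv_smul_eq_iff]
      exact this.symm
    exact ⟨⟨s⁻¹, e2, e1, rfl⟩, ⟨s⁻¹, e2, e1, rfl⟩⟩
  · intro s _ t _ hst
    have hst' : (s⁻¹ • p • hᶜ, s⁻¹ • p • h'ᶜ) = (t⁻¹ • p • hᶜ, t⁻¹ • p • h'ᶜ) := hst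
    rw [Prod.mk.injEq] at hst'
    have key : ∀ U : Set V, s⁻¹ • p • Uᶜ = t⁻¹ • p • Uᶜ → (p⁻¹ * (s * t⁻¹) * p) • U = U := by
      intro U hU
      rw [inv_smul_eq_iff] at hU
      have h1 : (p⁻¹ * (s * t⁻¹) * p) • Uᶜ = Uᶜ := by
        rw [mul_smul, mul_smul, mul_smul, ← hU, inv_smul_smul]
      rw [compl_smul, compl_inj_iff] at h1
      exact h1
    rw [hK]
    exact ⟨key _ hst'.1, key _ hst'.2⟩

/-- all nested elements, if the coherent ones are fine -/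
lemma types_bd (hG : Geo X G) {K : Subgroup G} {B : Set X} (hB : CC K B) (hle : h' ⊆ h)
    (hD : Disc G h) (hD' : Disc G h')
    (hK : ∀ s : G, s ∈ K ↔ s • h = h ∧ s • h' = h') {p q : G} (hp : p • h'ᶜ ⊂ h')
    (hq : q • h ⊂ hᶜ) (hcoh : ∀ g : G, Coh h h' g → Bd B g) :
    (∀ g : G, Coh h h' g → Bd B g ∧ Bd B g⁻¹) ∧
    (∀ g : G, g • h'ᶜ ⊂ h' → Bd B g ∧ Bd B g⁻¹) ∧ ∀ g : G, g • h ⊂ hᶜ → Bd B g ∧ Bd B g⁻¹ := by
  have := hG.proper
  have := hG.isom
  have hfac : ∀ p' : G, p' • h'ᶜ ⊂ h' → Bd B p' := fun p' hp' =>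
    bd_fac hG hB hle hD hD' hK hq hcoh hp'
  have hc : ∀ g : G, Coh h h' g → Bd B g ∧ Bd B g⁻¹ := by
    intro g hg
    refine ⟨hcoh g hg, ?_⟩
    have h1 : (g * p) • h'ᶜ ⊂ h' := by
      rw [mul_smul]
      exact (smul_ss g hp).trans_subset ((smul_set_mono hle).trans hg.1)
    have h2 := (hfac p hp).mul hB (hfac _ (fac_inv h1))
    have e : p * (g * p)⁻¹ = g⁻¹ := by group
    rwa [e] at h2
  refine ⟨hc, fun g hg => ⟨hfac g hg, hfac _ (fac_inv hg)⟩, fun g hg => ?_⟩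
  have key : ∀ g : G, g • h ⊂ hᶜ → Bd B g := by
    intro g hg
    have h1 := (hfac _ (fac_inv hp)).mul hB (hcoh _ (coh_of_ss hle (pq_ss hle hp hg)))
    rwa [inv_mul_cancel_left] at h1
  refine ⟨key g hg, key _ ?_⟩
  have := fac_inv (U := hᶜ) (p := g) (by rwa [compl_compl])
  rwa [compl_compl] at this

/-- the subgroup of the elements which move `B` to a set at finite distance -/
def HH [ProperSpace X] [IsIsometricSMul G X] {K : Subgroup G} {B : Set X} (hB : CC K B) :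
    Subgroup G where
  carrier := {g | Bd B g ∧ Bd B g⁻¹}
  one_mem' := by
    refine ⟨Bd.of_mem hB K.one_mem, ?_⟩
    rw [inv_one]
    exact Bd.of_mem hB K.one_mem
  mul_mem' := by
    rintro a b ⟨h1, h2⟩ ⟨h3, h4⟩
    refine ⟨h1.mul hB h3, ?_⟩
    rw [mul_inv_rev]
    exact h4.mul hB h2
  inv_mem' := by
    rintro a ⟨h1, h2⟩
    refine ⟨h2, ?_⟩
    rwa [inv_inv]

/-- **Main alternative.** -/
theorem rank_one_or_types (hG : Geo X G) {K : Subgroup G} {B : Set X} (hB : CC K B) (k : K)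
    {τ : ℝ} (hτ : 0 < τ) {c : ℝ → B} (hk : @Axis B _ K _ (bact hB) k τ c) (hHP : HP c = ∅)
    (hle : h' ⊆ h) (hD : Disc G h) (hD' : Disc G h')
    (hK : ∀ s : G, s ∈ K ↔ s • h = h ∧ s • h' = h') {p q : G} (hp : p • h'ᶜ ⊂ h')
    (hq : q • h ⊂ hᶜ) : (∃ g : G, RankOne X g) ∨
    ((∀ g : G, Coh h h' g → Bd B g ∧ Bd B g⁻¹) ∧
    (∀ g : G, g • h'ᶜ ⊂ h' → Bd B g ∧ Bd B g⁻¹) ∧
      ∀ g : G, g • h ⊂ hᶜ → Bd B g ∧ Bd B g⁻¹) := by
  by_cases hno : ∃ g : G, RankOne X g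
  · exact Or.inl hno
  right
  push Not at hno
  by_cases hr : ∀ g : G, Coh h h' g → Bd B g
  · exact types_bd hG hB hle hD hD' hK hp hq hr
  · push Not at hr
    obtain ⟨h₂, hh₂, hn₂⟩ := hr
    have hr' : ∀ g : G, Coh h h' g → Bd B g⁻¹ := by
      intro g hg
      rcases stepW hG hB k hτ hk hHP hle hD hD' hK hno hg hh₂ with h1 | h1
      · exact h1
      · exact absurd h1 hn₂
    have hrev : ∀ g : G, Coh h'ᶜ hᶜ g ↔ Coh h h' g⁻¹ := by
      intro g
      unfold Coh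
      rw [compl_smul, compl_subset_compl, Ne, compl_inj_iff]
      constructor
      · rintro ⟨h1, h2⟩
        have h3 : g⁻¹ • h ⊆ h' := by
          have := smul_set_mono (a := g⁻¹) h1
          rwa [inv_smul_smul] at this
        refine ⟨h3, fun h4 => h2 ?_⟩
        have h5 : h' = h := hle.antisymm (by rw [h4] at h3; exact h3)
        rw [h5]
        rw [inv_smul_eq_iff] at h4
        exact h4.symm
      · rintro ⟨h1, h2⟩
        have h3 : h ⊆ g • h' := by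
          have := smul_set_mono (a := g) h1
          rwa [smul_inv_smul] at this
        refine ⟨h3, fun h4 => h2 ?_⟩
        have h5 : h' = h := hle.antisymm (by rw [h4] at h3; exact h3)
        rw [h5] at h4
        rw [inv_smul_eq_iff]
        exact h4.symm
    obtain ⟨t1, t2, t3⟩ := types_bd (h := h'ᶜ) (h' := hᶜ) hG hB (compl_subset_compl.2 hle)
      hD'.compl hD.compl (fun s => by
        rw [hK, compl_smul, compl_smul, compl_inj_iff, compl_inj_iff]; exact and_comm)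
      (p := q) (q := p) (by rwa [compl_compl]) (by rwa [compl_compl]) (fun g hg => by
        have := hr' _ ((hrev g).1 hg)
        rwa [inv_inv] at this)
    rw [compl_compl] at t2 t3
    refine ⟨fun g hg => ?_, t3, t2⟩
    have h1 := t1 g⁻¹ ((hrev _).2 (by rwa [inv_inv]))
    rw [inv_inv] at h1
    exact ⟨h1.2, h1.1⟩

end Pool.Agent.H751.WR
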