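import Pool.Agent.H751.WR.Sep

/-!
# Elements which skewer two half-spaces whose common stabiliser is finite are rank one
-/

set_option autoImplicit false

open Metric Set Filter Topology Pointwise
open Pool.Agent.TH60.FP Pool.Agent.Y34.HB Pool.Agent.Y34.EL Pool.Agent.Y219.EL
open Pool.Agent.Y155.HB Pool.Agent.T6.H46.RR

namespace Pool.Agent.H751.WR

variable {X : Type} [MetricSpace X] {G : Type} [Group G] [MulAction G X]
variable {V : Type} [MulAction G V]

/-- **Criterion.** If `f` skewers the half-space `U` and finitely many elements of `G` stabilise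
both `U` and `f ^ n U` then `f` is a rank one isometry of `X`. -/
theorem rank_one_of_wall (hG : Geo X G) (o0 : X) {U : Set V} (hD : Disc G U) {f : G}
    (hf : f • U ⊂ U) {q : ℕ} (hq0 : 0 < q)
    (hfin : {s : G | s • U = U ∧ s • f ^ q • U = f ^ q • U}.Finite) : RankOne X f := by
  classical
  have := hG.proper
  have := hG.isom
  obtain ⟨τ, c, hτ, hc⟩ := exists_axisW hG o0 hD hf
  refine ⟨τ, c, hτ, hc, ?_⟩
  by_contra hne
  have hne' : (HP c).Nonempty := nonempty_iff_ne_empty.2 hne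
  obtain ⟨w, hw, hw'⟩ := exists_of_ssubset hf
  have hch := chain hf
  set o := c 0 with ho
  have hlnk := t_half X hG.cn o (fun t => c t) (fun t => c (-t))
    ⟨rfl, fun s t _ _ => by rw [hc.1.dist_eq, Real.dist_eq]⟩
    ⟨by simp [ho], fun s t _ _ => by
      rw [hc.1.dist_eq, Real.dist_eq, ← abs_neg]; congr 1; ring⟩
    c 0 hc.1 (fun t _ => ⟨by simp, by simp⟩) hne'
  obtain ⟨D1, hD1, hlift⟩ := lift hG o
  set R := 2 * D1 + 1 with hR
  have hR0 : 0 < R := by positivity
  set L0 : ℝ := 21 * (2 * q * τ + 1) with hL0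
  -- the finite set of half-spaces next to the base point
  set Ws : Set (Set V) := ⋃ s ∈ {s : G | dist o (s • o) ≤ R}, sep G U w (s • w) with hWs
  have hWfin : Ws.Finite := (finite_short hG o R).biUnion fun s _ => hD _ _
  -- the finite set of movers
  have hYfin := finite_moversW (G := G) (A := U) (B := f ^ q • U) hfin
    (finite_short hG o (L0 * R)) hWfin
  obtain ⟨R0, hR0'⟩ := (hYfin.image (fun u => dist o (u • o))).bddAbove
  have hR0Y : ∀ u s : G, dist o (s • o) ≤ L0 * R → s⁻¹ • u⁻¹ • U ∈ Ws →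
      u⁻¹ • f ^ q • U ∈ Ws → dist o (u • o) ≤ R0 := fun u s h1 h2 h3 =>
    hR0' ⟨u, ⟨s, h1, h2, h3⟩, rfl⟩
  have hqr : (0 : ℝ) < q := by exact_mod_cast hq0
  have hqτ : 0 < q * τ := mul_pos hqr hτ
  obtain ⟨M, hM⟩ := exists_nat_gt ((R0 + D1) / (q * τ) + 1)
  obtain ⟨M, hM, hM1⟩ : ∃ M : ℕ, (R0 + D1) / (q * τ) < M ∧ 1 ≤ M :=
    ⟨M + 1, by push_cast; linarith, by omega⟩
  rw [div_lt_iff₀ hqτ] at hM
  have hMr : (0 : ℝ) < M := by exact_mod_cast hM1
  set m := 2 * q * M with hm
  have hm0 : 0 < m := by positivity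
  obtain ⟨N, y, hN, hy0, hyN, hyr, hst⟩ := hlnk (m * τ) (by positivity)
  have e1 : c (m * τ) = f ^ m • o := by rw [ho, Pool.Agent.R632.CZ.Axis.nat hc m 0, zero_add]
  have e2 : c (-(m * τ)) = (f ^ m)⁻¹ • o := by
    rw [eq_inv_smul_iff, Pool.Agent.R632.CZ.Axis.nat hc m, ho]; congr 1; ring
  have hN0 : 0 < N := by
    rcases Nat.eq_zero_or_pos N with h | h
    · exfalso
      rw [h] at hyN
      have h1 : c (m * τ) = c (-(m * τ)) := hy0.symm.trans hyN
      have h2 := hc.1.injective h1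
      have h3 : 0 < m * τ := by positivity
      linarith
    · exact h
  obtain ⟨x, hx0, hxN, hxy, hxs⟩ := hlift N y (f ^ m) (f ^ m)⁻¹ hN0 (by rw [hy0]; exact e1)
    (by rw [hyN]; exact e2) hst
  -- the crossings
  have hxNn : ∀ k : ℕ, x N • w ∉ f ^ (q * k) • U := by
    intro k hmem
    rw [hxN, ← zpow_natCast, ← zpow_natCast, ← zpow_neg] at hmem
    have h1 : f ^ ((q * k : ℕ) : ℤ) • U ⊆ f ^ (-(m : ℤ) + 1) • U := hch.antitone (by
      have : (0 : ℤ) < m := by exact_mod_cast hm0
      have : (0 : ℤ) ≤ ((q * k : ℕ) : ℤ) := by positivity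
      omega)
    have h2 := h1 hmem
    rw [zpow_add_one, mul_smul, smul_mem_smul_set_iff] at h2
    exact hw' h2
  have hex : ∀ k : ℕ, ∃ i, x i • w ∉ f ^ (q * k) • U := fun k => ⟨N, hxNn k⟩
  set j : ℕ → ℕ := fun k => Nat.find (hex k) with hj
  have hjs : ∀ k, x (j k) • w ∉ f ^ (q * k) • U := fun k => Nat.find_spec (hex k)
  have hjm : ∀ k i, x i • w ∉ f ^ (q * k) • U → j k ≤ i :=
    fun k i h => Nat.find_min' (hex k) h
  have hjN : ∀ k, j k ≤ N := fun k => hjm k N (hxNn k)
  have hjanti : ∀ k, j (k + 1) ≤ j k := by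
    intro k
    refine hjm (k + 1) (j k) fun h => hjs k ?_
    have h1 : f ^ ((q * (k + 1) : ℕ) : ℤ) • U ⊆ f ^ ((q * k : ℕ) : ℤ) • U :=
      hch.antitone (by push_cast; nlinarith)
    rw [zpow_natCast, zpow_natCast] at h1
    exact h1 h
  have hqk : ∀ k, k ≤ M → q * k ≤ q * M := fun k hk => Nat.mul_le_mul_left q hk
  have hj1 : ∀ k, k ≤ M → 1 ≤ j k := by
    intro k hk
    by_contra hcon
    have h0 : j k = 0 := by omega
    have h1 := hjs k
    rw [h0, hx0] at h1
    refine h1 ?_
    have h3 : q * k ≤ m := by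
      have := hqk k hk
      rw [hm]; nlinarith
    have h2 : f ^ (m : ℤ) • U ⊆ f ^ ((q * k : ℕ) : ℤ) • U :=
      hch.antitone (by exact_mod_cast h3)
    rw [zpow_natCast, zpow_natCast] at h2
    exact h2 (smul_mem_smul_set hw)
  have hnear : ∀ k, k ≤ M → (x (j k))⁻¹ • f ^ (q * k) • U ∈ Ws := by
    intro k hk
    have hk1 := hj1 k hk
    have h1 : x (j k - 1) • w ∈ f ^ (q * k) • U := by
      by_contra hcon
      have := hjm k (j k - 1) hcon
      omega
    have h2 := hxs (j k - 1) (by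
      have := hjN k
      omega)
    rw [Nat.sub_add_cancel hk1] at h2
    simp only [hWs, mem_iUnion]
    refine ⟨(x (j k))⁻¹ * x (j k - 1), ?_, ⟨_, by rw [mul_smul]⟩, ?_, ?_⟩
    · show dist o (((x (j k))⁻¹ * x (j k - 1)) • o) ≤ R
      rw [← dist_smul ((x (j k - 1))⁻¹ * x (j k)), smul_smul, dist_comm]
      have e : (x (j k - 1))⁻¹ * x (j k) * ((x (j k))⁻¹ * x (j k - 1)) = 1 := by group
      rw [e, one_smul]
      exact h2
    · rw [mul_smul]
      exact smul_mem_smul_set h1
    · intro h3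
      rw [mem_inv_smul_set_iff] at h3
      exact hjs k h3
  obtain ⟨k, hkM, hk⟩ : ∃ k, k < M ∧ (j k - j (k + 1)) * M ≤ N := by
    by_contra hcon
    push Not at hcon
    have h1 : ∀ k, k ≤ M → j k * M + k * (N + 1) ≤ j 0 * M := by
      intro k
      induction k with
      | zero => intro _; simp
      | succ k ih =>
        intro hk
        have h2 := ih (by omega)
        have h3 := hcon k (by omega)
        have h4 := hjanti k
        have h5 : (j k - j (k + 1)) * M = j k * M - j (k + 1) * M := Nat.sub_mul _ _ _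
        have h6 : j (k + 1) * M ≤ j k * M := Nat.mul_le_mul_right M h4
        rw [h5] at h3
        rw [add_mul k 1, one_mul]
        omega
    have h2 := h1 M le_rfl
    have h3 := hjN 0
    have h4 : j 0 * M ≤ N * M := Nat.mul_le_mul_right M h3
    nlinarith
  set a1 := j (k + 1) with ha1
  set a2 := j k with ha2
  have ha12 : a1 ≤ a2 := hjanti k
  set u := (f ^ (q * k))⁻¹ * x a1 with hu
  set s := (x a1)⁻¹ * x a2 with hs
  have hs1 : dist o (s • o) ≤ L0 * R := by
    have h1 := walk_space o R x a1 (a2 - a1) fun i h2 h3 => hxs i (by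
      have := hjN k
      omega)
    rw [Nat.add_sub_cancel' ha12] at h1
    have h2 : dist o (s • o) = dist (x a1 • o) (x a2 • o) := by
      rw [hs, mul_smul, ← dist_smul (x a1), smul_inv_smul]
    rw [h2]
    refine h1.trans (mul_le_mul_of_nonneg_right ?_ hR0.le)
    have h3 : ((a2 - a1 : ℕ) : ℝ) * M ≤ N := by exact_mod_cast hk
    have h4 : (N : ℝ) ≤ L0 * M := by
      refine hN.trans ?_
      rw [hL0, hm]
      push_cast
      have h5 : (1 : ℝ) ≤ M := by exact_mod_cast hM1
      nlinarith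
    exact le_of_mul_le_mul_right (h3.trans h4) hMr
  have hu1 : u⁻¹ • f ^ q • U ∈ Ws := by
    have h1 := hnear (k + 1) (by omega)
    have e : u⁻¹ • f ^ q • U = (x a1)⁻¹ • f ^ (q * (k + 1)) • U := by
      rw [hu, mul_inv_rev, inv_inv, mul_smul, smul_smul (f ^ (q * k)), ← pow_add]
      congr 2
    rw [e]
    exact h1
  have hu2 : s⁻¹ • u⁻¹ • U ∈ Ws := by
    have h1 := hnear k hkM.le
    have e : s⁻¹ • u⁻¹ • U = (x a2)⁻¹ • f ^ (q * k) • U := by
      rw [smul_smul, hu, hs, smul_smul]; congr 1; group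
    rw [e]
    exact h1
  have h1 := hR0Y u s hs1 hu2 hu1
  have h2 : dist (x a1 • o) o ≤ R0 + (q * k) * τ := by
    have e : x a1 • o = f ^ (q * k) • u • o := by rw [hu, smul_smul, mul_inv_cancel_left]
    have h3 := dist_triangle (f ^ (q * k) • u • o) (f ^ (q * k) • o) o
    rw [dist_smul, dist_comm (u • o)] at h3
    have h4 : dist (f ^ (q * k) • o) o = (q * k) * τ := by
      rw [ho, Pool.Agent.R632.CZ.Axis.nat hc (q * k) 0, hc.1.dist_eq, Real.dist_eq, zero_add,
        sub_zero, abs_of_nonneg (by positivity)]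
      push_cast; ring
    rw [e]
    linarith
  have h3 : m * τ ≤ dist (x a1 • o) o + D1 := by
    have h4 := hxy a1 (hjN _)
    have h5 := hyr a1 (hjN _)
    have h6 := dist_triangle o (x a1 • o) (y a1)
    rw [h5, dist_comm o] at h6
    linarith
  have h4 : ((q : ℝ) * k) * τ ≤ q * M * τ := by
    have : (k : ℝ) ≤ M := by exact_mod_cast hkM.le
    nlinarith
  have h5 : (m : ℝ) = 2 * q * M := by rw [hm]; push_cast; ring
  rw [h5] at h3
  nlinarith

end Pool.Agent.H751.WR
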