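import Pool.Agent.H751.WR.Comm

/-!
# Transverse translates, finite index, and the splitting
-/

set_option autoImplicit false

open Metric Set Filter Topology Pointwise
open Pool.Agent.TH60.FP Pool.Agent.TH60.FP.Strip Pool.Agent.Y34.HB Pool.Agent.Y34.EL
open Pool.Agent.T6.H46.RR Pool.Agent.T6.H46.RC

namespace Pool.Agent.H751.WR

/-- all four corners are nonempty -/
def Tra {V : Type} (A B : Set V) : Prop :=
  (A ∩ B).Nonempty ∧ (A ∩ Bᶜ).Nonempty ∧ (Aᶜ ∩ B).Nonempty ∧ (Aᶜ ∩ Bᶜ).Nonempty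

section sets

variable {G : Type} [Group G] {V : Type} [MulAction G V] {h h' : Set V}

lemma Tra.smul {A B : Set V} (hAB : Tra A B) (g : G) : Tra (g • A) (g • B) := by
  obtain ⟨h1, h2, h3, h4⟩ := hAB
  unfold Tra
  rw [← compl_smul, ← compl_smul, ← smul_set_inter, ← smul_set_inter, ← smul_set_inter,
    ← smul_set_inter]
  exact ⟨h1.smul_set, h2.smul_set, h3.smul_set, h4.smul_set⟩

/-- a subgroup which contains all nested elements -/
lemma tra_of_notMem (hle : h' ⊆ h) {H : Subgroup G} {p q : G} (hp : p • h'ᶜ ⊂ h')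
    (hq : q • h ⊂ hᶜ) (h1 : ∀ g : G, Coh h h' g → g ∈ H) (h2 : ∀ g : G, g • h'ᶜ ⊂ h' → g ∈ H)
    (h3 : ∀ g : G, g • h ⊂ hᶜ → g ∈ H) {u : G} (hu : u ∉ H) : Tra h (u • h) := by
  obtain ⟨c, c1⟩ : ∃ c : G, c • h ⊂ h' := ⟨_, pq_ss hle hp hq⟩
  have c2 : Coh h h' c := coh_of_ss hle c1
  have cH : c ∈ H := h1 c c2
  have css : c • h ⊂ h := c2.ss hle
  -- `u h` is not contained in `h`
  have key : ∀ u : G, u ∉ H → ¬ u • h ⊆ h := by
    intro u hu hsub
    refine hu ?_
    have h4 : Coh h h' (c * u) := by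
      rw [Coh, mul_smul]
      have h5 : c • u • h ⊂ h := lt_of_le_of_lt (smul_set_mono hsub : c • u • h ≤ c • h) css
      exact ⟨(smul_set_mono hsub).trans c1.1, h5.ne⟩
    exact (Subgroup.mul_mem_cancel_left H cH).1 (h1 _ h4)
  have hinv : u⁻¹ ∉ H := fun h0 => hu (by simpa using H.inv_mem h0)
  have n1 : ¬ u • h ⊆ h := key u hu
  have n2 : ¬ h ⊆ u • h := by
    intro h0
    refine key _ hinv ?_
    have := smul_set_mono (a := u⁻¹) h0
    rwa [inv_smul_smul] at this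
  have n3 : ¬ u • h ⊆ hᶜ := by
    intro h0
    refine hu ?_
    have h4 : (u * c) • h ⊂ hᶜ := by
      rw [mul_smul]
      exact (smul_ss u css).trans_subset h0
    exact (Subgroup.mul_mem_cancel_right H cH).1 (h3 _ h4)
  have n4 : ¬ hᶜ ⊆ u • h := by
    intro h0
    refine hu ?_
    -- `u hᶜ ⊆ h`
    have h4 : u • hᶜ ⊆ h := by
      rw [compl_smul]
      exact compl_subset_comm.1 h0
    have h5 : c⁻¹ • c⁻¹ • h'ᶜ ⊂ hᶜ := by
      have e1 : c⁻¹ • hᶜ ⊂ hᶜ := by
        have := compl_ss css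
        rw [← compl_smul] at this
        have := smul_ss c⁻¹ this
        rwa [inv_smul_smul] at this
      have e2 : c⁻¹ • h'ᶜ ⊆ hᶜ := by
        have := compl_subset_compl.2 c1.1
        rw [← compl_smul] at this
        have := smul_set_mono (a := c⁻¹) this
        rwa [inv_smul_smul] at this
      exact lt_of_le_of_lt (smul_set_mono e2 : c⁻¹ • c⁻¹ • h'ᶜ ≤ c⁻¹ • hᶜ) e1
    have h6 : (c * u * (c⁻¹ * c⁻¹)) • h'ᶜ ⊂ h' := by
      rw [mul_smul, mul_smul, mul_smul]
      have e3 := smul_ss c (smul_ss u h5)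
      exact e3.trans_subset ((smul_set_mono h4).trans c1.1)
    have h7 := h2 _ h6
    have h8 := (Subgroup.mul_mem_cancel_right H (H.mul_mem (H.inv_mem cH) (H.inv_mem cH))).1 h7
    exact (Subgroup.mul_mem_cancel_left H cH).1 h8
  refine ⟨?_, ?_, ?_, ?_⟩
  · by_contra h0
    rw [not_nonempty_iff_eq_empty] at h0
    exact n3 fun z hz hz' => by
      have : z ∈ h ∩ u • h := ⟨hz', hz⟩
      rw [h0] at this
      exact this
  · by_contra h0
    rw [not_nonempty_iff_eq_empty] at h0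
    exact n2 fun z hz => by
      by_contra hz'
      have : z ∈ h ∩ (u • h)ᶜ := ⟨hz, hz'⟩
      rw [h0] at this
      exact this
  · by_contra h0
    rw [not_nonempty_iff_eq_empty] at h0
    exact n1 fun z hz => by
      by_contra hz'
      have : z ∈ hᶜ ∩ u • h := ⟨hz', hz⟩
      rw [h0] at this
      exact this
  · by_contra h0
    rw [not_nonempty_iff_eq_empty] at h0
    exact n4 fun z hz => by
      by_contra hz'
      have : z ∈ hᶜ ∩ (u • h)ᶜ := ⟨hz, hz'⟩
      rw [h0] at this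
      exact this

/-- no infinite set of pairwise transverse translates -/
def FinTra (G : Type) [Group G] {V : Type} [MulAction G V] (h : Set V) : Prop :=
  ∀ S : Set (Set V), (∀ U ∈ S, ∃ g : G, g • h = U) → S.Pairwise Tra → S.Finite

lemma finite_quot {H : Subgroup G} (hH : ∀ u : G, u ∉ H → Tra h (u • h))
    (hfd : FinTra G h) : H.FiniteIndex := by
  have hpair : ∀ x y : G ⧸ H, x ≠ y → Tra (x.out • h) (y.out • h) := by
    intro x y hxy
    have h1 : x.out⁻¹ * y.out ∉ H := by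
      intro h0
      refine hxy ?_
      rw [← QuotientGroup.out_eq' x, ← QuotientGroup.out_eq' y]
      exact QuotientGroup.eq.2 h0
    have h2 := (hH _ h1).smul x.out
    rwa [mul_smul, smul_inv_smul] at h2
  have hne : ∀ A B : Set V, Tra A B → A ≠ B := by
    rintro A B h1 rfl
    obtain ⟨z, hz1, hz2⟩ := h1.2.1
    exact hz2 hz1
  have hfin : (range (fun x : G ⧸ H => x.out • h)).Finite := by
    refine hfd _ ?_ ?_
    · rintro _ ⟨x, rfl⟩
      exact ⟨_, rfl⟩
    · rintro _ ⟨x, rfl⟩ _ ⟨y, rfl⟩ hne'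
      exact hpair x y fun h0 => hne' (by rw [h0])
  have hinj : Function.Injective (fun x : G ⧸ H => x.out • h) := by
    intro x y hxy
    by_contra h0
    exact hne _ _ (hpair x y h0) hxy
  have : Finite (G ⧸ H) := by
    rw [← Set.finite_univ_iff]
    refine Set.Finite.of_finite_image ?_ hinj.injOn
    rwa [image_univ]
  exact Subgroup.finiteIndex_of_finite_quotient

end sets

variable {X : Type} [MetricSpace X] {G : Type} [Group G] [MulAction G X]

omit [MetricSpace X] [MulAction G X] in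
/-- a finite set of coset representatives -/
lemma ex_reps {W K : Subgroup G} (hidx : W.relIndex K ≠ 0) :
    ∃ R : Set G, R.Finite ∧ ∀ x ∈ K, ∃ r ∈ R, r⁻¹ * x ∈ W := by
  have : (W.subgroupOf K).FiniteIndex := ⟨hidx⟩
  have : Finite (K ⧸ W.subgroupOf K) := Subgroup.finite_quotient_of_finiteIndex
  refine ⟨range (fun q : K ⧸ W.subgroupOf K => (q.out : G)), finite_range _, fun x hx => ?_⟩
  refine ⟨_, ⟨((⟨x, hx⟩ : K) : K ⧸ W.subgroupOf K), rfl⟩, ?_⟩
  have h1 : ((((⟨x, hx⟩ : K) : K ⧸ W.subgroupOf K).out : K) : K ⧸ W.subgroupOf K) =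
      ((⟨x, hx⟩ : K) : K ⧸ W.subgroupOf K) := QuotientGroup.out_eq' _
  rw [QuotientGroup.eq, Subgroup.mem_subgroupOf] at h1
  exact h1

/-- a finite index subgroup is convex cocompact on the same set -/
lemma cc_finite (hG : Geo X G) {K W : Subgroup G} {B : Set X} (hB : CC K B) (hW : W ≤ K)
    (hidx : W.relIndex K ≠ 0) : CC W B := by
  have := hG.isom
  obtain ⟨C, hC, hcov⟩ := hB.cc
  refine ⟨hB.ne, hB.closed, hB.conv, fun g hg => hB.inv g (hW hg), ?_⟩
  obtain ⟨R, hR, hrep⟩ := ex_reps hidx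
  refine ⟨⋃ r ∈ R, (fun x => r⁻¹ • x) '' C, hR.isCompact_biUnion fun r _ =>
    hC.image (isometry_smul X r⁻¹).continuous, fun x hx => ?_⟩
  obtain ⟨g, hg, hgx⟩ := hcov x hx
  obtain ⟨r, hr, hrg⟩ := hrep g hg
  refine ⟨r⁻¹ * g, hrg, ?_⟩
  simp only [mem_iUnion]
  exact ⟨r, hr, g • x, hgx, by rw [mul_smul]⟩

lemma geo_finite (hG : Geo X G) (N : Subgroup G) [N.FiniteIndex] : Geo X N := by
  have := hG.proper
  have := hG.isom
  have := hG.disc
  obtain ⟨C, hC, hcov⟩ := hG.cc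
  refine ⟨hG.proper, ?_, ?_, ?_, hG.cn⟩
  · refine ⟨fun g x y => ?_⟩
    show edist ((g : G) • x) ((g : G) • y) = edist x y
    rw [edist_smul_left]
  · refine ⟨fun {C L} hC hL => ?_⟩
    have h1 := ProperlyDiscontinuousSMul.finite_disjoint_inter_image (Γ := G) hC hL
    refine Set.Finite.of_injOn (f := fun g : N => (g : G)) ?_ (Subtype.val_injective.injOn) h1
    intro g hg
    exact hg
  · have hidx : N.relIndex ⊤ ≠ 0 := by
      rw [Subgroup.relIndex_top_right]
      exact Subgroup.FiniteIndex.index_ne_zero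
    obtain ⟨R, hR, hrep⟩ := ex_reps hidx
    refine ⟨⋃ r ∈ R, (fun x => r⁻¹ • x) '' C, hR.isCompact_biUnion fun r _ =>
      hC.image (isometry_smul X r⁻¹).continuous, fun x => ?_⟩
    obtain ⟨g, hgx⟩ := hcov x
    obtain ⟨r, hr, hrg⟩ := hrep g (Subgroup.mem_top g)
    refine ⟨⟨r⁻¹ * g, hrg⟩, ?_⟩
    simp only [mem_iUnion]
    exact ⟨r, hr, g • x, hgx, by
      show r⁻¹ • g • x = (r⁻¹ * g) • x
      rw [mul_smul]⟩

/-- a subgroup without positive powers of some element is not cocompact -/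
lemma not_cc (hG : Geo X G) {K : Subgroup G} {B : Set X} (hB : CC K B) {f : G}
    (hf : ∀ n : ℕ, 0 < n → f ^ n ∉ K) : ¬ ∀ x, x ∈ B := by
  intro hall
  have := hG.isom
  obtain ⟨o, ho⟩ := hB.ne
  obtain ⟨D, hD0, hD⟩ := cc_near hG hB ho
  have hF := finite_short hG o D
  have h1 : ∀ n : ℕ, ∃ g ∈ K, dist o ((g⁻¹ * f ^ n) • o) ≤ D := by
    intro n
    obtain ⟨g, hg, hgd⟩ := hD (f ^ n • o) (hall _)
    refine ⟨g, hg, ?_⟩
    rw [mul_smul, ← dist_smul g, smul_inv_smul, dist_comm]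
    exact hgd
  choose g hg hgd using h1
  have hninj : ¬ Function.Injective (fun n : ℕ => (g n)⁻¹ * f ^ n) := by
    intro hinj
    have : (univ : Set ℕ).Finite :=
      Set.Finite.of_injOn (f := fun n : ℕ => (g n)⁻¹ * f ^ n) (fun n _ => hgd n)
        (hinj.injOn) hF
    exact Set.infinite_univ this
  rw [Function.Injective] at hninj
  push Not at hninj
  have key : ∀ m n : ℕ, m < n → (g m)⁻¹ * f ^ m = (g n)⁻¹ * f ^ n → False := by
    intro m n hmn he
    refine hf (n - m) (by omega) ?_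
    have e2 : f ^ n = f ^ (n - m) * f ^ m := by
      rw [← pow_add]; congr 1; omega
    rw [e2] at he
    have e3 : f ^ (n - m) = g n * (g m)⁻¹ := by
      have : (g m)⁻¹ = (g n)⁻¹ * f ^ (n - m) := by
        have := congrArg (· * (f ^ m)⁻¹) he
        simpa [mul_assoc] using this
      rw [this]; group
    rw [e3]
    exact K.mul_mem (hg n) (K.inv_mem (hg m))
  obtain ⟨m, n, he, hne⟩ := hninj
  rcases lt_or_gt_of_ne hne with h | h
  · exact key m n h he
  · exact key n m h he.symm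

variable {V : Type} [MulAction G V] {h h' : Set V}

omit [MetricSpace X] [MulAction G X] in
lemma pow_ss {f : G} (hf : f • h ⊂ h) (n : ℕ) (hn : 0 < n) : f ^ n • h ≠ h := by
  have h1 := chain hf
  have h2 : f ^ (n : ℤ) • h ⊂ f ^ (0 : ℤ) • h := h1 (by exact_mod_cast hn)
  rw [zpow_natCast, zpow_zero, one_smul] at h2
  exact h2.ne

/-- **Main theorem** -/
theorem mainW (hG : Geo X G) (hGC : GC X) {K : Subgroup G} {B : Set X} (hB : CC K B) (k : K)
    {τ : ℝ} (hτ : 0 < τ) {c : ℝ → B} (hk : @Axis B _ K _ (bact hB) k τ c) (hHP : HP c = ∅)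
    (hle : h' ⊆ h) (hD : Disc G h) (hD' : Disc G h') (hfd : FinTra G h)
    (hK : ∀ s : G, s ∈ K ↔ s • h = h ∧ s • h' = h') {p q : G} (hp : p • h'ᶜ ⊂ h')
    (hq : q • h ⊂ hᶜ) : (∃ g : G, RankOne X g) ∨
      ∃ B₀ : Set X, B₀ ⊆ B ∧ (∃ W : Subgroup G, W ≤ K ∧ W.relIndex K ≠ 0 ∧ CC W B₀) ∧
      Nontrivial B₀ ∧ ∃ (Z : Type) (_ : MetricSpace Z) (_ : Nontrivial Z) (e : X ≃ Z × B₀),
      ∀ x x' : X, dist x x' ^ 2 = dist (e x).1 (e x').1 ^ 2 + dist (e x).2 (e x').2 ^ 2 := by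
  have := hG.isom
  have := hG.proper
  rcases rank_one_or_types hG hB k hτ hk hHP hle hD hD' hK hp hq with h1 | ⟨t1, t2, t3⟩
  · exact Or.inl h1
  right
  have hfi : (HH hB).FiniteIndex := finite_quot (H := HH hB)
    (fun u hu => tra_of_notMem hle hp hq t1 t2 t3 hu) hfd
  set N : Subgroup G := (HH hB).normalCore with hN
  have hNH : N ≤ HH hB := Subgroup.normalCore_le _
  have hNfi : N.FiniteIndex := inferInstance
  have hGN : Geo X N := geo_finite hG N
  have hidx : (K ⊓ N).relIndex K ≠ 0 := by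
    rw [Subgroup.inf_relIndex_left]
    have : (N.subgroupOf K).FiniteIndex := inferInstance
    exact this.index_ne_zero
  have hB1 : CC (K ⊓ N) B := cc_finite hG hB inf_le_left hidx
  have hB2 : CC (K.subgroupOf N) B := by
    refine ⟨hB1.ne, hB1.closed, hB1.conv, fun g hg x hx => hB.inv g (Subgroup.mem_subgroupOf.1 hg)
      x hx, ?_⟩
    obtain ⟨C, hC, hcov⟩ := hB1.cc
    refine ⟨C, hC, fun x hx => ?_⟩
    obtain ⟨g, hg, hgx⟩ := hcov x hx
    exact ⟨⟨g, hg.2⟩, Subgroup.mem_subgroupOf.2 hg.1, hgx⟩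
  obtain ⟨B₀, hsub, h₀, hcase⟩ := split_of_bd hGN hGC hB2 (fun g => (hNH g.2).1)
  -- `B₀` is not everything
  have hnot : ¬ ∀ x, x ∈ B₀ := by
    set f := p * q with hf
    have hfs : f • h ⊂ h := (coh_of_ss hle (pq_ss hle hp hq)).ss hle
    obtain ⟨n, hn0, -, hn⟩ := Subgroup.exists_pow_mem_of_index_ne_zero
      (Subgroup.FiniteIndex.index_ne_zero (H := N)) f
    refine not_cc hGN h₀ (f := ⟨f ^ n, hn⟩) fun m hm hmem => ?_
    have h2 : f ^ (n * m) ∈ K := by
      have := Subgroup.mem_subgroupOf.1 hmem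
      rw [Subgroup.coe_pow] at this
      rw [pow_mul]
      exact this
    exact pow_ss hfs (n * m) (Nat.mul_pos hn0 hm) ((hK _).1 h2).1
  -- `B₀` has two points
  have hnon : Nontrivial B₀ := by
    obtain ⟨n, hn0, -, hn⟩ := Subgroup.exists_pow_mem_of_index_ne_zero
      (Subgroup.FiniteIndex.index_ne_zero (H := N)) (k : G)
    have := hGN.isom
    have hmem : (⟨(k : G) ^ n, hn⟩ : N) ∈ K.subgroupOf N :=
      Subgroup.mem_subgroupOf.2 (K.pow_mem k.2 n)
    refine nontrivial_of_axis hB2 h₀ hsub (⟨⟨(k : G) ^ n, hn⟩, hmem⟩ : K.subgroupOf N)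
      (τ := n * τ) (mul_pos (by exact_mod_cast hn0) hτ) (c := c) ⟨hk.1, fun t => ?_⟩
    let _ := bact hB
    have hGB := geo_sub hG hB
    have := hGB.isom
    have h3 := Pool.Agent.R632.CZ.Axis.nat hk n t
    refine Subtype.ext ?_
    have h4 := congrArg Subtype.val h3
    refine Eq.trans ?_ h4
    show (k : G) ^ n • (c t : X) = ((k ^ n : K) : G) • (c t : X)
    rw [Subgroup.coe_pow]
  rcases hcase with h1 | h1
  · exact absurd h1 hnot
  refine ⟨B₀, hsub, ⟨K ⊓ N, inf_le_left, hidx, ?_⟩, hnon, h1⟩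
  refine ⟨h₀.ne, h₀.closed, h₀.conv, fun g hg x hx => h₀.inv ⟨g, hg.2⟩
    (Subgroup.mem_subgroupOf.2 hg.1) x hx, ?_⟩
  obtain ⟨C, hC, hcov⟩ := h₀.cc
  refine ⟨C, hC, fun x hx => ?_⟩
  obtain ⟨g, hg, hgx⟩ := hcov x hx
  exact ⟨g, ⟨Subgroup.mem_subgroupOf.1 hg, g.2⟩, hgx⟩

end Pool.Agent.H751.WR
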