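import Pool.Agent.H751.WR.Crit

/-!
# Nested pairs of half-spaces: the main step
-/

set_option autoImplicit false

open Metric Set Filter Topology Pointwise
open Pool.Agent.TH60.FP Pool.Agent.TH60.FP.Strip Pool.Agent.Y34.HB Pool.Agent.Y34.EL
open Pool.Agent.T6.H46.RR Pool.Agent.T6.H46.RC

namespace Pool.Agent.H751.WR

section sets

variable {G : Type} [Group G] {V : Type} [MulAction G V]

lemma Disc.smul {U : Set V} (hD : Disc G U) (g : G) : Disc G (g • U) := by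
  intro v w
  refine (hD v w).subset ?_
  rintro W ⟨⟨x, hx⟩, h1⟩
  exact ⟨⟨x * g, by rw [mul_smul, hx]⟩, h1⟩

lemma compl_smul (g : G) (U : Set V) : g • Uᶜ = (g • U)ᶜ := smul_set_compl

lemma Disc.compl {U : Set V} (hD : Disc G U) : Disc G Uᶜ := by
  intro v w
  refine ((hD w v).image (fun W : Set V => Wᶜ)).subset ?_
  rintro W ⟨⟨x, hx⟩, h1, h2⟩
  refine ⟨Wᶜ, ⟨⟨x, ?_⟩, h2, fun h => h h1⟩, compl_compl W⟩
  rw [← hx, compl_smul, compl_compl]

/-- finitely many translates of `U` are between `A` and `B` -/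
lemma between {U A B : Set V} (hD : Disc G U) (hA : A.Nonempty) (hB : B ≠ univ) :
    {W : Set V | (∃ g : G, g • U = W) ∧ A ⊆ W ∧ W ⊆ B}.Finite := by
  obtain ⟨v, hv⟩ := hA
  obtain ⟨w, hw⟩ := (ne_univ_iff_exists_notMem B).1 hB
  exact (hD w v).subset fun W h => ⟨h.1, h.2.1 hv, fun h' => hw (h.2.2 h')⟩

/-- the translates of `U` by elements which stabilise sets `A ⊆ U ⊆ B` -/
lemma orb_finite {U A B : Set V} (hD : Disc G U) (hA : A.Nonempty) (hB : B ≠ univ)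
    (h1 : A ⊆ U) (h2 : U ⊆ B) : {W : Set V | ∃ s : G, s • A = A ∧ s • B = B ∧ s • U = W}.Finite := by
  refine (between hD hA hB).subset ?_
  rintro W ⟨s, hs1, hs2, rfl⟩
  refine ⟨⟨s, rfl⟩, ?_, ?_⟩
  · conv_lhs => rw [← hs1]
    exact smul_set_mono h1
  · conv_rhs => rw [← hs2]
    exact smul_set_mono h2

lemma fin_of_stab {S : Subgroup G} {U : Set V}
    (h1 : ((S ⊓ MulAction.stabilizer G U : Subgroup G) : Set G).Finite)
    (h2 : {W : Set V | ∃ s : G, s ∈ S ∧ s • U = W}.Finite) : (S : Set G).Finite := by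
  refine Set.Finite.of_finite_fibers (fun s : G => s • U) (h2.subset ?_) ?_
  · rintro _ ⟨s, hs, rfl⟩
    exact ⟨s, hs, rfl⟩
  · rintro _ ⟨s, hs, rfl⟩
    refine (h1.image (fun z => s * z)).subset ?_
    rintro t ⟨ht, h⟩
    have h' : t • U = s • U := h
    refine ⟨s⁻¹ * t, ⟨S.mul_mem (S.inv_mem hs) ht, ?_⟩, by simp⟩
    show (s⁻¹ * t) • U = U
    rw [mul_smul, h', inv_smul_smul]

end sets

/-- `g` moves the pair `h ⊇ h'` coherently into itself -/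
def Coh {G V : Type} [Group G] [MulAction G V] (h h' : Set V) (g : G) : Prop :=
  g • h ⊆ h' ∧ g • h ≠ h

section sets2

variable {G : Type} [Group G] {V : Type} [MulAction G V] {h h' : Set V}

lemma Coh.ss (hle : h' ⊆ h) {g : G} (hg : Coh h h' g) : g • h ⊂ h :=
  ssubset_iff_subset_ne.2 ⟨hg.1.trans hle, hg.2⟩

/-- The element `g h₂ h₁`. -/
lemma coh_fin (hle : h' ⊆ h) (hD : Disc G h) (hD' : Disc G h') {h₁ h₂ g : G}
    (c₁ : Coh h h' h₁) (c₂ : Coh h h' h₂) (ga : g • h = h) (gb : g • h' = h')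
    (hfin : {s : G | (s • h = h ∧ s • h' = h') ∧ (s • h₁⁻¹ • h = h₁⁻¹ • h ∧
      s • h₁⁻¹ • h' = h₁⁻¹ • h') ∧ s • (g * h₂) • h = (g * h₂) • h ∧
      s • (g * h₂) • h' = (g * h₂) • h'}.Finite) :
    (g * h₂ * h₁) • h₁⁻¹ • h ⊂ h₁⁻¹ • h ∧ {s : G | s • h₁⁻¹ • h = h₁⁻¹ • h ∧
      s • (g * h₂ * h₁) ^ 2 • h₁⁻¹ • h = (g * h₂ * h₁) ^ 2 • h₁⁻¹ • h}.Finite := by
  set W := h₁⁻¹ • h with hW
  set f := g * h₂ * h₁ with hf
  have e1 : f • W = (g * h₂) • h := by rw [hf, hW, mul_smul, smul_inv_smul]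
  have i1 : h₁⁻¹ • h' ⊆ W := smul_set_mono hle
  have i2 : h ⊆ h₁⁻¹ • h' := by
    have := smul_set_mono (a := h₁⁻¹) c₁.1
    rwa [inv_smul_smul] at this
  have i4 : (g * h₂) • h ⊆ h' := by
    rw [mul_smul, ← gb]
    have := smul_set_mono (a := g) c₂.1
    rw [gb] at this ⊢
    exact this
  have i5 : (g * h₂) • h' ⊆ (g * h₂) • h := smul_set_mono hle
  have i6 : f • h ⊆ (g * h₂) • h' := by
    rw [hf, mul_smul]
    exact smul_set_mono c₁.1
  have i7 : f • f • W ⊆ f • h := by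
    rw [e1]
    exact smul_set_mono (i4.trans hle)
  have hne : (g * h₂) • h ≠ h := by
    intro h0
    rw [mul_smul] at h0
    exact c₂.2 (smul_left_cancel g (h0.trans ga.symm))
  have hs1 : f • W ⊂ W := by
    rw [e1]
    refine (ssubset_iff_subset_ne.2 ⟨i4.trans hle, hne⟩).trans_subset (i2.trans i1)
  refine ⟨hs1, ?_⟩
  have hs2 := smul_ss f hs1
  have hs3 := smul_ss f hs2
  set A := f • f • W with hA
  have eA : f ^ 2 • W = A := by rw [pow_two, mul_smul]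
  rw [eA]
  have hAne : A.Nonempty := by
    obtain ⟨z, hz, -⟩ := exists_of_ssubset hs3
    exact ⟨z, hz⟩
  have hWne : W ≠ univ := by
    have h0 := smul_ss f⁻¹ hs1
    rw [inv_smul_smul] at h0
    intro h1
    rw [h1] at h0
    exact h0.2 (subset_univ _)
  set S₀ : Subgroup G := MulAction.stabilizer G W ⊓ MulAction.stabilizer G A with hS₀
  have hS : ({s : G | s • W = W ∧ s • A = A} : Set G) = (S₀ : Set G) := by
    ext s
    rw [hS₀]
    simp [MulAction.mem_stabilizer_iff]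
  rw [hS]
  have horb : ∀ (S : Subgroup G) (U : Set V), S ≤ S₀ → Disc G U → A ⊆ U → U ⊆ W →
      {W' : Set V | ∃ s : G, s ∈ S ∧ s • U = W'}.Finite := by
    intro S U hle' hDU hU1 hU2
    refine (orb_finite hDU hAne hWne hU1 hU2).subset ?_
    rintro W' ⟨s, hs, hs'⟩
    have := hle' hs
    rw [hS₀, Subgroup.mem_inf, MulAction.mem_stabilizer_iff, MulAction.mem_stabilizer_iff] at this
    exact ⟨s, this.2, this.1, hs'⟩
  have j5 : A ⊆ (g * h₂) • h' := i7.trans i6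
  have j4 := j5.trans i5
  have j3 := j4.trans i4
  have j2 := j3.trans hle
  have j1 := j2.trans i2
  refine fin_of_stab ?_ (horb S₀ (h₁⁻¹ • h') le_rfl (hD'.smul _) j1 i1)
  refine fin_of_stab ?_ (horb _ h inf_le_left hD j2 (i2.trans i1))
  refine fin_of_stab ?_ (horb _ h' (inf_le_left.trans inf_le_left) hD' j3
    (hle.trans (i2.trans i1)))
  refine fin_of_stab ?_ (horb _ ((g * h₂) • h) (inf_le_left.trans (inf_le_left.trans
    inf_le_left)) (hD.smul _) j4 (i4.trans (hle.trans (i2.trans i1))))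
  refine fin_of_stab ?_ (horb _ ((g * h₂) • h') (inf_le_left.trans (inf_le_left.trans
    (inf_le_left.trans inf_le_left))) (hD'.smul _) j5
    (i5.trans (i4.trans (hle.trans (i2.trans i1)))))
  refine hfin.subset ?_
  intro s hs
  simp only [hS₀, SetLike.mem_coe, Subgroup.mem_inf, MulAction.mem_stabilizer_iff] at hs
  exact ⟨⟨hs.1.1.1.2, hs.1.1.2⟩, ⟨hs.1.1.1.1.1.1, hs.1.1.1.1.2⟩, hs.1.2, hs.2⟩

end sets2

variable {X : Type} [MetricSpace X] {G : Type} [Group G] [MulAction G X]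
variable {V : Type} [MulAction G V] {h h' : Set V}

lemma stepW (hG : Geo X G) {K : Subgroup G} {B : Set X} (hB : CC K B) (k : K) {τ : ℝ}
    (hτ : 0 < τ) {c : ℝ → B} (hk : @Axis B _ K _ (bact hB) k τ c) (hHP : HP c = ∅)
    (hle : h' ⊆ h) (hD : Disc G h) (hD' : Disc G h')
    (hK : ∀ s : G, s ∈ K ↔ s • h = h ∧ s • h' = h')
    (hno : ∀ g : G, ¬ RankOne X g) {h₁ h₂ : G} (hh₁ : Coh h h' h₁) (hh₂ : Coh h h' h₂) :
    Bd B h₁⁻¹ ∨ Bd B h₂ := by
  have := hG.proper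
  have := hG.isom
  let _ := bact hB
  have hGB := geo_sub hG hB
  have := hGB.isom
  have := hGB.proper
  by_cases f1 : ∀ s : K, ∃ l : ℕ, 0 < l ∧ (s * k * s⁻¹) ^ l ∈ IK K h₁⁻¹
  · exact Or.inl (full hG hB k hτ hk hHP _ f1)
  by_cases f2 : ∀ s : K, ∃ l : ℕ, 0 < l ∧ (s * k * s⁻¹) ^ l ∈ IK K h₂
  · exact Or.inr (full hG hB k hτ hk hHP _ f2)
  exfalso
  push Not at f1 f2
  obtain ⟨s₁, hs₁⟩ := f1
  obtain ⟨s₂, hs₂⟩ := f2
  obtain ⟨R, D, hP⟩ := pass_of_axis hGB.cn hτ hk hHP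
  obtain ⟨g, hg⟩ := dyn hGB (axis_conj hk s₂) (hP.smul s₂) (axis_conj hk s₁) (hP.smul s₁)
    (A₁ := IK K h₁⁻¹) (A₂ := IK K h₂) (qc_IK hG hB h₁⁻¹) (qc_IK hG hB h₂) hs₂ hs₁
  have hgK := (hK (g : G)).1 g.2
  obtain ⟨hsk, hfn⟩ := coh_fin hle hD hD' hh₁ hh₂ hgK.1 hgK.2 (by
    refine (hg.image (fun s : K => (s : G))).subset ?_
    rintro s ⟨⟨x1, x2⟩, ⟨x3, x3'⟩, x4, x5⟩
    have hsK : s ∈ K := (hK s).2 ⟨x1, x2⟩
    refine ⟨⟨s, hsK⟩, ⟨?_, ?_⟩, rfl⟩
    · rw [mem_IK, hK]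
      show ((h₁⁻¹)⁻¹ * s * h₁⁻¹) • h = h ∧ ((h₁⁻¹)⁻¹ * s * h₁⁻¹) • h' = h'
      rw [inv_inv]
      constructor
      · rw [mul_smul, mul_smul, x3, smul_inv_smul]
      · rw [mul_smul, mul_smul, x3', smul_inv_smul]
    · rw [mem_IK, hK]
      show (h₂⁻¹ * ((g : G)⁻¹ * s * g) * h₂) • h = h ∧ (h₂⁻¹ * ((g : G)⁻¹ * s * g) * h₂) • h' = h'
      have e : h₂⁻¹ * ((g : G)⁻¹ * s * g) * h₂ = ((g : G) * h₂)⁻¹ * s * ((g : G) * h₂) := by group
      rw [e]
      constructor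
      · rw [mul_smul, mul_smul, x4, inv_smul_smul]
      · rw [mul_smul, mul_smul, x5, inv_smul_smul])
  obtain ⟨o, ho⟩ := hB.ne
  exact hno _ (rank_one_of_wall hG o (hD.smul _) hsk two_pos hfn)

end Pool.Agent.H751.WR
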