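import Pool.Graph.R_pool_sql_team_seeded_47a924f7.T6.H46.RC.Fin

/-!
# Walls: counting the translates of a half-space, and elements which skewer a half-space
-/

set_option autoImplicit false

open Metric Set Filter Topology Pointwise
open Pool.Agent.TH60.FP Pool.Agent.Y34.HB Pool.Agent.Y34.EL Pool.Agent.Y219.EL
open Pool.Agent.Y155.HB Pool.Agent.T6.H46.RR

namespace Pool.Agent.H751.WR

section sep

variable (G : Type) [Group G] {V : Type} [MulAction G V]

/-- the translates of `U` which contain `w` and not `v` -/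
def sep (U : Set V) (v w : V) : Set (Set V) :=
  {W | (∃ g : G, g • U = W) ∧ w ∈ W ∧ v ∉ W}

/-- any two points are separated by finitely many translates of `U` -/
def Disc (U : Set V) : Prop := ∀ v w : V, (sep G U v w).Finite

/-- the number of the translates of `U` which contain `w` and not `v` -/
noncomputable def NN (U : Set V) (v w : V) : ℕ := (sep G U v w).ncard

variable {G}

lemma sep_smul (g : G) (U : Set V) (v w : V) :
    sep G U (g • v) (g • w) = (fun W => g • W) '' sep G U v w := by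
  ext W
  constructor
  · rintro ⟨⟨x, hx⟩, h1, h2⟩
    refine ⟨g⁻¹ • W, ⟨⟨g⁻¹ * x, by rw [mul_smul, hx]⟩, ?_, ?_⟩, smul_inv_smul g W⟩
    · rwa [mem_inv_smul_set_iff]
    · rwa [mem_inv_smul_set_iff]
  · rintro ⟨W', ⟨⟨x, hx⟩, h1, h2⟩, rfl⟩
    refine ⟨⟨g * x, by rw [mul_smul, hx]⟩, ?_, ?_⟩
    · exact smul_mem_smul_set h1
    · show g • v ∉ g • W'
      rwa [smul_mem_smul_set_iff]

lemma NN_smul (g : G) (U : Set V) (v w : V) : NN G U (g • v) (g • w) = NN G U v w := by
  unfold NN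
  rw [sep_smul]
  exact ncard_image_of_injective _ (MulAction.injective g)

lemma NN_tri {U : Set V} (hD : Disc G U) (v x w : V) :
    NN G U v w ≤ NN G U v x + NN G U x w := by
  refine (ncard_le_ncard (t := sep G U v x ∪ sep G U x w) ?_
    ((hD v x).union (hD x w))).trans (ncard_union_le _ _)
  rintro W ⟨h1, h2, h3⟩
  by_cases hx : x ∈ W
  · exact Or.inl ⟨h1, hx, h3⟩
  · exact Or.inr ⟨h1, h2, hx⟩

lemma NN_self (U : Set V) (v : V) : NN G U v v = 0 := by
  unfold NN
  have : sep G U v v = ∅ := by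
    rw [eq_empty_iff_forall_notMem]
    rintro W ⟨-, h1, h2⟩
    exact h2 h1
  rw [this, ncard_empty]

lemma smul_ss (g : G) {A B : Set V} (h : A ⊂ B) : g • A ⊂ g • B := by
  rw [ssubset_iff_subset_ne] at h ⊢
  exact ⟨smul_set_mono h.1, fun e => h.2 (smul_left_cancel g e)⟩

/-- the chain of the translates by powers -/
lemma chain {U : Set V} {f : G} (hf : f • U ⊂ U) : StrictAnti (fun k : ℤ => f ^ k • U) := by
  refine strictAnti_int_of_succ_lt fun k => ?_
  show f ^ (k + 1) • U ⊂ f ^ k • U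
  rw [zpow_add_one, mul_smul]
  exact smul_ss _ hf

/-- the powers of `f` are far away -/
lemma le_NN {U : Set V} (hD : Disc G U) {f : G} (hf : f • U ⊂ U) {v : V} (hv : v ∈ U)
    (hv' : v ∉ f • U) (n : ℕ) : n ≤ NN G U v (f ^ n • v) := by
  have hc := chain hf
  have h1 : (fun i : ℕ => f ^ ((i : ℤ) + 1) • U) '' (Finset.range n : Set ℕ) ⊆
      sep G U v (f ^ n • v) := by
    rintro W ⟨i, hi, rfl⟩
    have hi' : i < n := by simpa using hi
    refine ⟨⟨_, rfl⟩, ?_, ?_⟩
    · have h2 : f ^ (n : ℤ) • U ⊆ f ^ ((i : ℤ) + 1) • U := hc.antitone (by omega)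
      exact h2 (by rw [zpow_natCast]; exact smul_mem_smul_set hv)
    · have h2 : f ^ ((i : ℤ) + 1) • U ⊆ f ^ (1 : ℤ) • U := hc.antitone (by omega)
      rw [zpow_one] at h2
      exact fun h => hv' (h2 h)
  have h2 := ncard_le_ncard h1 (hD _ _)
  rw [ncard_image_of_injective _ (fun i j hij => by
    have := hc.injective hij
    omega), ncard_coe_finset, Finset.card_range] at h2
  exact h2

end sep

section space

variable {X : Type} [MetricSpace X] {G : Type} [Group G] [MulAction G X]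
variable {V : Type} [MulAction G V]

lemma lipN (hG : Geo X G) (o : X) (U : Set V) (w : V) (R : ℝ) : ∃ C : ℕ, ∀ s : G,
    dist o (s • o) ≤ R → NN G U w (s • w) ≤ C := by
  obtain ⟨C, hC⟩ := ((finite_short hG o R).image (fun s => NN G U w (s • w))).bddAbove
  exact ⟨C, fun s hs => hC ⟨s, hs, rfl⟩⟩

omit [MetricSpace X] [MulAction G X] in
lemma walkN {U : Set V} (hD : Disc G U) (w : V) (C : ℕ) (x : ℕ → G) (i : ℕ) : ∀ k : ℕ,
    (∀ j, i ≤ j → j < i + k → NN G U w (((x j)⁻¹ * x (j + 1)) • w) ≤ C) →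
    NN G U (x i • w) (x (i + k) • w) ≤ k * C := by
  intro k
  induction k with
  | zero => intro _; simp [NN_self]
  | succ k ih =>
    intro h
    have h1 := ih fun j h1 h2 => h j h1 (by omega)
    have h2 := h (i + k) (by omega) (by omega)
    rw [mul_smul, ← NN_smul (x (i + k)), smul_inv_smul] at h2
    have h3 := NN_tri hD (x i • w) (x (i + k) • w) (x (i + k + 1) • w)
    rw [show i + (k + 1) = i + k + 1 by ring, add_mul, one_mul]
    omega

/-- elements which skewer a half-space have an axis in `X` -/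
lemma exists_axisW (hG : Geo X G) (o : X) {U : Set V} (hD : Disc G U) {f : G}
    (hf : f • U ⊂ U) : ∃ (τ : ℝ) (c : ℝ → X), 0 < τ ∧ Axis f τ c := by
  have := hG.proper
  have := hG.isom
  obtain ⟨w, hw, hw'⟩ := exists_of_ssubset hf
  obtain ⟨D1, hD1, hlift⟩ := lift hG o
  obtain ⟨C, hC⟩ := lipN hG o U w (2 * D1 + 1)
  have h1 : ∀ n : ℕ, (n : ℝ) ≤ C * (dist o (f ^ n • o) + 2) := by
    intro n
    obtain ⟨N, y, hN0, hN, hy0, hyN, hst⟩ := seg_chain hG.cn o (f ^ n • o)
    obtain ⟨x, hx0, hxN, -, hxs⟩ := hlift N y 1 (f ^ n) hN0 (by rw [hy0, one_smul]) hyN hst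
    have h2 := walkN hD w C x 0 N fun j _ hj => hC _ (hxs j (by omega))
    rw [zero_add, hx0, hxN, one_smul] at h2
    have h3 : n ≤ N * C := (le_NN hD hf hw hw' n).trans h2
    have h4 : (n : ℝ) ≤ N * C := by exact_mod_cast h3
    have h5 : (N : ℝ) * C ≤ (dist o (f ^ n • o) + 2) * C :=
      mul_le_mul_of_nonneg_right hN (by positivity)
    linarith
  have hCpos : (0 : ℝ) < C := by
    by_contra hcon
    have h2 := h1 1
    have h3 : (C : ℝ) = 0 := le_antisymm (not_lt.1 hcon) (by positivity)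
    rw [h3] at h2
    norm_num at h2
  have hup : ∀ (m k : ℕ), dist o (f ^ (m * k) • o) ≤ k * dist o (f ^ m • o) := by
    intro m k
    induction k with
    | zero => simp
    | succ k ih =>
      have h2 := dist_triangle o (f ^ (m * k) • o) (f ^ (m * (k + 1)) • o)
      have h3 : dist (f ^ (m * k) • o) (f ^ (m * (k + 1)) • o) = dist o (f ^ m • o) := by
        rw [mul_add, mul_one, pow_add, mul_smul, dist_smul]
      rw [h3] at h2
      push_cast
      linarith
  refine t_axis X G hG f o (1 / C) (by positivity) fun m => ?_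
  rw [one_div, inv_mul_le_iff₀ hCpos]
  by_contra hcon
  push Not at hcon
  obtain ⟨k, hk⟩ := exists_nat_gt (2 * C / (m - C * dist o (f ^ m • o)))
  have hpos : 0 < (m : ℝ) - C * dist o (f ^ m • o) := by linarith
  rw [div_lt_iff₀ hpos] at hk
  have h2 := h1 (m * k)
  have h3 := hup m k
  push_cast at h2
  have h4 : (C : ℝ) * (dist o (f ^ (m * k) • o) + 2) ≤ C * (k * dist o (f ^ m • o) + 2) :=
    mul_le_mul_of_nonneg_left (by linarith) hCpos.le
  nlinarith

/-- few group elements move a pair of sets to one of finitely many pairs -/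
lemma finite_moversW {A B : Set V} (hfin : {s : G | s • A = A ∧ s • B = B}.Finite) {S : Set G}
    (hS : S.Finite) {Ws : Set (Set V)} (hW : Ws.Finite) :
    {u : G | ∃ s ∈ S, s⁻¹ • u⁻¹ • A ∈ Ws ∧ u⁻¹ • B ∈ Ws}.Finite := by
  refine Set.Finite.of_finite_fibers (fun u : G => (u⁻¹ • A, u⁻¹ • B)) ?_ ?_
  · refine (((hS.biUnion fun s _ => hW.image (fun W => s • W)) : (⋃ s ∈ S, (fun W => s • W) ''
      Ws).Finite).prod hW).subset ?_
    rintro _ ⟨u, ⟨s, hs, h1, h2⟩, rfl⟩
    refine ⟨?_, h2⟩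
    simp only [mem_iUnion]
    exact ⟨s, hs, _, h1, smul_inv_smul s _⟩
  · rintro _ ⟨u₁, -, rfl⟩
    refine (hfin.image (fun z => z * u₁)).subset ?_
    rintro u₂ ⟨-, h⟩
    have h' : (u₂⁻¹ • A, u₂⁻¹ • B) = (u₁⁻¹ • A, u₁⁻¹ • B) := h
    rw [Prod.mk.injEq] at h'
    refine ⟨u₂ * u₁⁻¹, ⟨?_, ?_⟩, by simp⟩
    · rw [mul_smul, ← h'.1, smul_inv_smul]
    · rw [mul_smul, ← h'.2, smul_inv_smul]

end space

end Pool.Agent.H751.WR
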